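import Pool.Agent.OMF.Stmts

/-! OMF, row RN2: a run with its sign information. -/

namespace Pool.Agent.OMF.H10

open Finset Pool.Agent.GTO Pool.Agent.OMF
open scoped Classical

theorem sg_sq (b : Bool) : sg b * sg b = 1 := by
  cases b <;> simp [sg]

theorem sg_ne (b : Bool) : sg b ≠ 0 := by
  cases b <;> simp [sg]

theorem dt_bv {ι : Type} (a : ι → V) (s : ι → Bool) (i j k : ι) :
    dt (bv a s i) (bv a s j) (bv a s k) =
      sg (s i) * sg (s j) * sg (s k) * dt (a i) (a j) (a k) := by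
  simp only [dt, bv, Pi.smul_apply, smul_eq_mul]
  ring

theorem dt_swap23 (u v w : V) : dt u v w = - dt u w v := by
  simp only [dt]
  ring

theorem sh_good {ι : Type} [Fintype ι] (a : ι → V) (d : Dat ι) (hd : Good a d) :
    SH a d.u d.u' d.v d.w ∧ SH a d.u d.u' d.w d.v := by
  obtain ⟨-, -, hl⟩ := hd
  constructor
  · refine ⟨sg (d.s d.w) * sg (d.s d.u), ?_⟩
    intro l hlO hlv hlw hlG hln
    obtain ⟨⟨h1, h1'⟩, -, ⟨h3, -⟩⟩ := hl l hlO hlv hlw
    have hp : 0 < dt (bv a d.s l) (bv a d.s d.v) (bv a d.s d.w) :=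
      lt_of_le_of_ne h1 (fun h => hlG (h1'.mp h.symm))
    have hne : dt (a d.u) (a d.v) (a l) ≠ 0 := by
      intro h
      exact hln (Finset.mem_filter.mpr ⟨Finset.mem_univ _, h⟩)
    have hq : 0 < dt (bv a d.s d.u) (bv a d.s d.v) (bv a d.s l) := by
      refine lt_of_le_of_ne h3 (fun h => ?_)
      rw [dt_bv] at h
      exact (mul_ne_zero (mul_ne_zero (mul_ne_zero (sg_ne _) (sg_ne _)) (sg_ne _)) hne) h.symm
    have hpq := mul_pos hp hq
    rw [dt_bv, dt_bv] at hpq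
    have e1 := sg_sq (d.s l)
    have e2 := sg_sq (d.s d.v)
    have e3 : sg (d.s l) * sg (d.s d.v) * sg (d.s d.w) * dt (a l) (a d.v) (a d.w) *
        (sg (d.s d.u) * sg (d.s d.v) * sg (d.s l) * dt (a d.u) (a d.v) (a l)) =
        (sg (d.s l) * sg (d.s l)) * (sg (d.s d.v) * sg (d.s d.v)) *
        (sg (d.s d.w) * sg (d.s d.u) *
          (dt (a l) (a d.v) (a d.w) * dt (a d.u) (a d.v) (a l))) := by ring
    rw [e3, e1, e2, one_mul, one_mul] at hpq
    exact hpq
  · refine ⟨sg (d.s d.v) * sg (d.s d.u), ?_⟩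
    intro l hlO hlw hlv hlG hln
    obtain ⟨⟨h1, h1'⟩, ⟨h2, -⟩, -⟩ := hl l hlO hlv hlw
    have hp : 0 < dt (bv a d.s l) (bv a d.s d.v) (bv a d.s d.w) :=
      lt_of_le_of_ne h1 (fun h => hlG (h1'.mp h.symm))
    have hne : dt (a d.u) (a l) (a d.w) ≠ 0 := by
      intro h
      refine hln (Finset.mem_filter.mpr ⟨Finset.mem_univ _, ?_⟩)
      rw [dt_swap23, h, neg_zero]
    have hq : 0 < dt (bv a d.s d.u) (bv a d.s l) (bv a d.s d.w) := by
      refine lt_of_le_of_ne h2 (fun h => ?_)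
      rw [dt_bv] at h
      exact (mul_ne_zero (mul_ne_zero (mul_ne_zero (sg_ne _) (sg_ne _)) (sg_ne _)) hne) h.symm
    have hpq := mul_pos hp hq
    rw [dt_bv, dt_bv] at hpq
    have e1 := sg_sq (d.s l)
    have e2 := sg_sq (d.s d.w)
    have e3 : sg (d.s l) * sg (d.s d.v) * sg (d.s d.w) * dt (a l) (a d.v) (a d.w) *
        (sg (d.s d.u) * sg (d.s l) * sg (d.s d.w) * dt (a d.u) (a l) (a d.w)) =
        (sg (d.s l) * sg (d.s l)) * (sg (d.s d.w) * sg (d.s d.w)) *
        (sg (d.s d.v) * sg (d.s d.u) *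
          (dt (a l) (a d.v) (a d.w) * dt (a d.u) (a l) (a d.w))) := by ring
    rw [e3, e1, e2, one_mul, one_mul] at hpq
    rw [dt_swap23 (a l) (a d.w) (a d.v), dt_swap23 (a d.u) (a d.w) (a l), neg_mul_neg]
    exact hpq

theorem third {ι : Type} [Fintype ι] (bas : BasStmt) (a : ι → V) (hpi : PI a) {G p q r : ι}
    (ht : Tri a G p q) (hl : ln a p q = {p, q, r}) : G = r := by
  obtain ⟨h1, h2, h3, h4⟩ := ht
  have hb := (bas.2.2.2.2.2 ι a hpi).1
  have hp : p ∈ ln a G p := by rw [h4]; simp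
  have hq : q ∈ ln a G p := by rw [h4]; simp
  have h5 : ln a p q = ln a G p := hb G p p q h1 h2 hp hq
  have h6 : G ∈ ln a p q := by rw [h5, h4]; simp
  rw [hl] at h6
  simp only [Finset.mem_insert, Finset.mem_singleton] at h6
  rcases h6 with h6 | h6 | h6
  · exact absurd h6 h1
  · exact absurd h6 (Ne.symm h3)
  · exact h6

theorem rn2 (bas : BasStmt) (gdw : GdwStmt) (col : ColStmt) (run : RunStmt) : Rn2Stmt := by
  intro ι _ a hpi N x ℓ hN hcard hs
  obtain ⟨d, ⟨hgd, f, hf0, hf⟩, hdx, hdl⟩ := hs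
  obtain ⟨Gm, G1, G2, hrun⟩ := run ι a hpi N f hcard hN hf
  have hc := (col ι a hpi).2.2
  have hu : ∀ i ≤ N, (f i).u = x := by
    intro i
    induction i with
    | zero => intro _; rw [hf0]; exact hdx
    | succ i ih =>
      intro hi
      rw [(hc _ _ (hf i (by omega))).2.2.1]
      exact ih (by omega)
  rw [hu 0 (by omega)] at hrun
  refine ⟨Gm, G1, G2, fun i => (f i).v, fun i => (f i).w', ⟨hrun, ?_⟩, ?_⟩
  · intro i hi
    have hiN : i < N := by omega
    have hcol := hf i hiN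
    obtain ⟨hg, hg', k1, k2, k3, k4⟩ := hc _ _ hcol
    have hT1 := hrun.2.1 i hi
    have hT2 := hrun.2.2.1 i hi
    simp only at hT1 hT2
    rw [k4] at hT1
    rw [k2] at hT2
    have hG1 : G1 = (f i).u' := third bas a hpi hT1 (gdw ι a hpi (f i) hg).2.2.1
    obtain ⟨s1, s2⟩ := sh_good a (f i) hg
    rw [hu i (by omega), ← hG1] at s1 s2
    obtain ⟨fm, -, -, -, -, -, hst, -⟩ := hcol
    obtain ⟨-, hgm, -, m1, m2, m3, m4, m5⟩ := hst
    have m1' : fm.u = x := by rw [m1]; exact hu i (by omega)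
    have m2' : fm.v = (f i).v' := m2
    have m3' : fm.w = (f i).w' := m3
    have hGm : Gm = fm.u' := by
      refine third bas a hpi hT2 ?_
      rw [← m2', ← m3']
      exact (gdw ι a hpi fm hgm).2.2.1
    obtain ⟨t1, t2⟩ := sh_good a fm hgm
    rw [m1', m2', m3', ← hGm] at t1 t2
    simp only
    rw [k4, k2]
    exact ⟨s1, s2, t1, t2⟩
  · have h1 := (gdw ι a hpi d hgd).2.2.2.2
    rw [← hdl, h1, hdx]
    simp only [hf0]

end Pool.Agent.OMF.H10
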